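import Pool.Agent.Helper16.QP.GDefs
import Pool.Agent.Helper36.SB.Lim

/-!
# QP, block SCH: sizes of a germ of vectors, and the subspace theorem (after helper36's SB/Lim and SB/Sub)
-/

set_option autoImplicit false

namespace Pool.Agent.QP

open NumberField Filter Module
open Pool.Agent.Helper64.Vojta (Pl nv nv_nonneg nv_mul nv_one nv_zero nv_pos)
open Pool.Agent.V2

variable {k : Type*} [Field k] [NumberField k] {ι : Type*} [Fintype ι]

/-- the local constant of a linear form -/
noncomputable def lcf (g : ι → k) (v : Pl k) : ℝ :=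
  |Real.log (vn v g)| + match v with
    | .inl v => v.mult * Real.log (Fintype.card ι)
    | .inr _ => 0

theorem lcf_nonneg (g : ι → k) (v : Pl k) : 0 ≤ lcf g v := by
  unfold lcf
  refine add_nonneg (abs_nonneg _) ?_
  rcases v with v | v
  · exact mul_nonneg (Nat.cast_nonneg _) (Real.log_natCast_nonneg _)
  · exact le_rfl

theorem finS_lcf {g : ι → k} (hg : g ≠ 0) : FinS (lcf g) := by
  refine Set.Finite.subset (finS_vn hg) fun v hv => ?_
  rw [Function.mem_support] at hv ⊢
  intro h
  apply hv
  simp only [lcf, h, abs_zero, add_zero]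

omit [NumberField k] in
theorem vl_ne_zero_left {g y : ι → k} (h : vl g y ≠ 0) : g ≠ 0 := by
  rintro rfl
  exact h (by simp [vl])

omit [NumberField k] in
theorem vl_ne_zero_right {g y : ι → k} (h : vl g y ≠ 0) : y ≠ 0 := by
  rintro rfl
  exact h (by simp [vl])

theorem log_vl_le (g y : ι → k) (h : vl g y ≠ 0) (v : Pl k) :
    Real.log (nv v (vl g y)) ≤ Real.log (vn v y) + lcf g v := by
  have hg := vl_ne_zero_left h
  have hy := vl_ne_zero_right h
  have hvg := vn_pos v hg
  have hvy := vn_pos v hy
  have hB : 0 ≤ vn v g * vn v y := by positivity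
  have hne : Nonempty ι := by
    by_contra hne
    rw [not_nonempty_iff] at hne
    exact h (by simp [vl])
  have hcard : (0 : ℝ) < Fintype.card ι := by exact_mod_cast Fintype.card_pos
  have hterm : ∀ v : Pl k, ∀ a ∈ (Finset.univ : Finset ι), nv v (g a * y a) ≤ vn v g * vn v y := by
    intro v a _
    rw [nv_mul]
    exact mul_le_mul (le_vn v g a) (le_vn v y a) (nv_nonneg v _) ((nv_nonneg v _).trans (le_vn v g a))
  have hpos := nv_pos v h
  have habs := le_abs_self (Real.log (vn v g))
  rcases v with v | v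
  · have h1 : nv (.inl v) (vl g y) ≤ (Fintype.card ι : ℝ) ^ v.mult * (vn (.inl v) g * vn (.inl v) y) := by
      have := nv_sum_inl v (Finset.univ : Finset ι) (fun a => g a * y a) hB (hterm (.inl v))
      rwa [Finset.card_univ] at this
    refine (Real.log_le_log hpos h1).trans ?_
    rw [Real.log_mul (by positivity) (by positivity), Real.log_mul hvg.ne' hvy.ne', Real.log_pow]
    unfold lcf
    linarith
  · have h1 : nv (.inr v) (vl g y) ≤ vn (.inr v) g * vn (.inr v) y :=
      nv_sum_inr v (Finset.univ : Finset ι) (fun a => g a * y a) hB (hterm (.inr v))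
    refine (Real.log_le_log hpos h1).trans ?_
    rw [Real.log_mul hvg.ne' hvy.ne']
    unfold lcf
    linarith

theorem nv_vl_le (g y : ι → k) (hy : y ≠ 0) (v : Pl k) : nv v (vl g y) ≤ Real.exp (lcf g v) * vn v y := by
  by_cases h : vl g y = 0
  · rw [h, nv_zero]
    have := vn_pos v hy
    positivity
  · have h1 := log_vl_le g y h v
    have h2 := vn_pos v hy
    rw [← Real.exp_log (nv_pos v h)]
    calc Real.exp (Real.log (nv v (vl g y))) ≤ Real.exp (Real.log (vn v y) + lcf g v) := Real.exp_le_exp.mpr h1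
      _ = Real.exp (lcf g v) * vn v y := by rw [Real.exp_add, Real.exp_log h2, mul_comm]

/-- the sum of the Weil functions of a form over a finite set of places -/
theorem sum_wl_le (g : ι → k) (y : ι → k) (h : vl g y ≠ 0) (P : Finset (Pl k)) :
    ∑ v ∈ P, (Real.log (vn v y) - Real.log (nv v (vl g y))) ≤ vH y + gsum (lcf g) := by
  classical
  have hg := vl_ne_zero_left h
  have hnn : ∀ v, 0 ≤ (Real.log (vn v y) - Real.log (nv v (vl g y))) + lcf g v := by
    intro v
    have := log_vl_le g y h v
    linarith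
  have hf1 : FinS (fun v => Real.log (vn v y)) := finS_vn' y
  have hf2 : FinS (fun v => -Real.log (nv v (vl g y))) := (finS_nv h).neg
  have hfw : FinS (fun v => Real.log (vn v y) - Real.log (nv v (vl g y))) := by
    have := hf1.add hf2
    simpa [sub_eq_add_neg] using this
  have hgs : gsum (fun v => Real.log (vn v y) - Real.log (nv v (vl g y))) = vH y := by
    have h1 : (fun v => Real.log (vn v y) - Real.log (nv v (vl g y))) =
        fun v => Real.log (vn v y) + -Real.log (nv v (vl g y)) := by
      funext v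
      ring
    rw [h1, gsum_add hf1 hf2, gsum_neg, gsum_nv h, neg_zero, add_zero]
    rfl
  calc ∑ v ∈ P, (Real.log (vn v y) - Real.log (nv v (vl g y)))
      ≤ ∑ v ∈ P, ((Real.log (vn v y) - Real.log (nv v (vl g y))) + lcf g v) :=
        Finset.sum_le_sum fun v _ => by have := lcf_nonneg g v; linarith
    _ ≤ gsum (fun v => (Real.log (vn v y) - Real.log (nv v (vl g y))) + lcf g v) :=
        sum_le_gsum (hfw.add (finS_lcf hg)) hnn P
    _ = vH y + gsum (lcf g) := by rw [gsum_add hfw (finS_lcf hg), hgs]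

theorem wl_ge (g : ι → k) (y : ι → k) (h : vl g y ≠ 0) (v : Pl k) :
    -lcf g v ≤ Real.log (vn v y) - Real.log (nv v (vl g y)) := by
  have := log_vl_le g y h v
  linarith

variable (U : Ultrafilter ℕ) (F : ℕ → ι → k)

omit [NumberField k] in
theorem not_van {g : ι → k} (hg : g ∉ van U F) : ∀ᶠ n in (U : Filter ℕ), vl g (F n) ≠ 0 :=
  Ultrafilter.eventually_not.mpr hg

variable (hH : Tendsto (fun n => vH (F n)) (U : Filter ℕ) atTop)

include hH

/-- the limit exists -/
theorem szf_tendsto (v : Pl k) (g : ι → k) (hg : g ∉ van U F) :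
    Tendsto (fun n => (Real.log (vn v (F n)) - Real.log (nv v (vl g (F n)))) / vH (F n)) (U : Filter ℕ)
      (nhds (szf U F v g)) := by
  unfold szf
  apply tendsto_nhds_limUnder
  set C : ℝ := gsum (lcf g) with hC
  have hC0 : 0 ≤ C := gsum_nonneg (lcf_nonneg g)
  have hmem : ∀ᶠ n in (U : Filter ℕ), (Real.log (vn v (F n)) - Real.log (nv v (vl g (F n)))) / vH (F n) ∈
      Set.Icc (-lcf g v) (1 + C) := by
    filter_upwards [not_van U F hg, hH.eventually_ge_atTop 1] with n h1 h2
    have h3 := wl_ge g (F n) h1 v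
    have h4 := sum_wl_le g (F n) h1 {v}
    rw [Finset.sum_singleton] at h4
    have hp : 0 < vH (F n) := by linarith
    have h5 := lcf_nonneg g v
    constructor
    · rw [le_div_iff₀ hp]
      nlinarith
    · rw [div_le_iff₀ hp]
      nlinarith
  obtain ⟨a, _, ha⟩ := isCompact_Icc.ultrafilter_le_nhds
    (U.map fun n => (Real.log (vn v (F n)) - Real.log (nv v (vl g (F n)))) / vH (F n)) (by
      rw [le_principal_iff]
      exact hmem)
  exact ⟨a, ha⟩

theorem szf_unique (v : Pl k) (g : ι → k) (hg : g ∉ van U F) {a : ℝ}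
    (ha : Tendsto (fun n => (Real.log (vn v (F n)) - Real.log (nv v (vl g (F n)))) / vH (F n)) (U : Filter ℕ) (nhds a)) :
    szf U F v g = a := tendsto_nhds_unique (szf_tendsto U F hH v g hg) ha

omit hH [NumberField k] in
theorem out_sub_mem (g : ι → k) : Quotient.out ((van U F).mkQ g) - g ∈ van U F := by
  rw [← Submodule.Quotient.mk_eq_zero, Submodule.Quotient.mk_sub, sub_eq_zero]
  exact Quotient.out_eq _

omit hH [NumberField k] in
theorem out_not_van {x : Qt U F} (hx : x ≠ 0) : (Quotient.out x : ι → k) ∉ van U F := by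
  intro h
  apply hx
  have h1 : (van U F).mkQ (Quotient.out x) = x := Quotient.out_eq x
  rw [← h1]
  exact (Submodule.Quotient.mk_eq_zero _).mpr h

omit hH [NumberField k] in
theorem not_van_of_mk {g : ι → k} (h : (van U F).mkQ g ≠ 0) : g ∉ van U F := fun hg =>
  h ((Submodule.Quotient.mk_eq_zero _).mpr hg)

theorem sz_mk (v : Pl k) (g : ι → k) (hg : g ∉ van U F) : sz U F v ((van U F).mkQ g) = szf U F v g := by
  have hne : (van U F).mkQ g ≠ 0 := fun h => hg ((Submodule.Quotient.mk_eq_zero _).mp h)
  unfold sz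
  apply szf_unique U F hH v _ (out_not_van U F hne)
  refine (szf_tendsto U F hH v g hg).congr' ?_
  filter_upwards [out_sub_mem U F g] with n hn
  have h1 : vl (Quotient.out ((van U F).mkQ g)) (F n) = vl g (F n) := by
    have h2 : vl (Quotient.out ((van U F).mkQ g) - g) (F n) =
        vl (Quotient.out ((van U F).mkQ g)) (F n) - vl g (F n) := by
      simp [vl, sub_mul, Finset.sum_sub_distrib]
    rw [h2] at hn
    exact sub_eq_zero.mp hn
  rw [h1]

theorem szf_nonneg (v : Pl k) (g : ι → k) (hg : g ∉ van U F) : 0 ≤ szf U F v g := by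
  refine le_of_tendsto_of_tendsto (tendsto_const_nhds.div_atTop hH : Tendsto (fun n => (-lcf g v) / vH (F n))
    (U : Filter ℕ) (nhds 0)) (szf_tendsto U F hH v g hg) ?_
  filter_upwards [not_van U F hg, hH.eventually_gt_atTop 0] with n h1 h2
  exact div_le_div_of_nonneg_right (wl_ge g (F n) h1 v) h2.le

theorem sz_nonneg (v : Pl k) (x : Qt U F) (hx : x ≠ 0) : 0 ≤ sz U F v x :=
  szf_nonneg U F hH v _ (out_not_van U F hx)

theorem szf_smul (v : Pl k) (c : k) (g : ι → k) (hc : c ≠ 0) (hg : g ∉ van U F) :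
    szf U F v (c • g) = szf U F v g := by
  have hcg : c • g ∉ van U F := fun h => hg (by
    have := (van U F).smul_mem c⁻¹ h
    rwa [inv_smul_smul₀ hc] at this)
  apply szf_unique U F hH v _ hcg
  have h0 : Tendsto (fun n => Real.log (nv v c) / vH (F n)) (U : Filter ℕ) (nhds 0) :=
    tendsto_const_nhds.div_atTop hH
  have h1 := (szf_tendsto U F hH v g hg).sub h0
  rw [sub_zero] at h1
  refine h1.congr' ?_
  filter_upwards [not_van U F hg] with n hn
  have h2 : vl (c • g) (F n) = c * vl g (F n) := by simp [vl, Finset.mul_sum, mul_assoc]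
  rw [h2, nv_mul, Real.log_mul (nv_pos v hc).ne' (nv_pos v hn).ne', ← sub_div]
  congr 1
  ring

theorem sz_smul (v : Pl k) (c : k) (x : Qt U F) (hc : c ≠ 0) (hx : x ≠ 0) : sz U F v (c • x) = sz U F v x := by
  have hg := out_not_van U F hx
  have h1 : (van U F).mkQ (Quotient.out x) = x := Quotient.out_eq x
  have hcg : c • (Quotient.out x : ι → k) ∉ van U F := fun h => hg (by
    have := (van U F).smul_mem c⁻¹ h
    rwa [inv_smul_smul₀ hc] at this)
  have h2 : c • x = (van U F).mkQ (c • (Quotient.out x : ι → k)) := by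
    rw [map_smul, h1]
  rw [h2, sz_mk U F hH v _ hcg, szf_smul U F hH v c _ hc hg]
  rfl

theorem szf_add (v : Pl k) (g g' : ι → k) (hg : g ∉ van U F) (hg' : g' ∉ van U F) (hgg : g + g' ∉ van U F) :
    min (szf U F v g) (szf U F v g') ≤ szf U F v (g + g') := by
  have h0 : Tendsto (fun n => Real.log 4 / vH (F n)) (U : Filter ℕ) (nhds 0) :=
    tendsto_const_nhds.div_atTop hH
  have h1 := ((szf_tendsto U F hH v g hg).min (szf_tendsto U F hH v g' hg')).sub h0
  rw [sub_zero] at h1
  refine le_of_tendsto_of_tendsto h1 (szf_tendsto U F hH v _ hgg) ?_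
  filter_upwards [not_van U F hg, not_van U F hg', not_van U F hgg, hH.eventually_gt_atTop 0] with n h2 h3 h4 h5
  rw [min_div_div_right h5.le, ← sub_div]
  apply div_le_div_of_nonneg_right _ h5.le
  have hadd : vl (g + g') (F n) = vl g (F n) + vl g' (F n) := by simp [vl, add_mul, Finset.sum_add_distrib]
  have h6 := Pool.Agent.Helper36.SB.nv_add_le v (vl g (F n)) (vl g' (F n))
  rw [← hadd] at h6
  have h7 := Real.log_le_log (nv_pos v h4) h6
  have hm : 0 < max (nv v (vl g (F n))) (nv v (vl g' (F n))) := lt_max_of_lt_left (nv_pos v h2)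
  rw [Real.log_mul (by norm_num) hm.ne'] at h7
  rcases le_total (nv v (vl g (F n))) (nv v (vl g' (F n))) with h8 | h8
  · rw [max_eq_right h8] at h7
    have h9 := Real.log_le_log (nv_pos v h2) h8
    have := min_le_right (Real.log (vn v (F n)) - Real.log (nv v (vl g (F n))))
      (Real.log (vn v (F n)) - Real.log (nv v (vl g' (F n))))
    linarith
  · rw [max_eq_left h8] at h7
    have := min_le_left (Real.log (vn v (F n)) - Real.log (nv v (vl g (F n))))
      (Real.log (vn v (F n)) - Real.log (nv v (vl g' (F n))))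
    linarith

theorem sz_add (v : Pl k) (x y : Qt U F) (hx : x ≠ 0) (hy : y ≠ 0) (hxy : x + y ≠ 0) :
    min (sz U F v x) (sz U F v y) ≤ sz U F v (x + y) := by
  have h1 : (van U F).mkQ (Quotient.out x) = x := Quotient.out_eq x
  have h2 : (van U F).mkQ (Quotient.out y) = y := Quotient.out_eq y
  have h3 : x + y = (van U F).mkQ ((Quotient.out x : ι → k) + Quotient.out y) := by
    rw [map_add, h1, h2]
  have h4 : (Quotient.out x : ι → k) + Quotient.out y ∉ van U F := by
    apply not_van_of_mk
    rw [← h3]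
    exact hxy
  rw [h3, sz_mk U F hH v _ h4]
  exact szf_add U F hH v _ _ (out_not_van U F hx) (out_not_van U F hy) h4

theorem res (P : Finset (Pl k)) (x : Qt U F) (hx : x ≠ 0) : ∑ v ∈ P, sz U F v x ≤ 1 := by
  have hg := out_not_van U F hx
  set g : ι → k := Quotient.out x with hgdef
  have h1 : Tendsto (fun n => ∑ v ∈ P, (Real.log (vn v (F n)) - Real.log (nv v (vl g (F n)))) / vH (F n))
      (U : Filter ℕ) (nhds (∑ v ∈ P, sz U F v x)) := tendsto_finsetSum _ fun v _ => szf_tendsto U F hH v g hg
  have h0 : Tendsto (fun n => 1 + gsum (lcf g) / vH (F n)) (U : Filter ℕ) (nhds (1 + 0)) :=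
    tendsto_const_nhds.add (tendsto_const_nhds.div_atTop hH)
  rw [add_zero] at h0
  refine le_of_tendsto_of_tendsto h1 h0 ?_
  filter_upwards [not_van U F hg, hH.eventually_gt_atTop 0] with n h2 h3
  rw [← Finset.sum_div, div_le_iff₀ h3, add_mul, one_mul, div_mul_cancel₀ _ h3.ne']
  exact sum_wl_le g (F n) h2 P

/-- the subspace theorem for linear forms which are independent modulo the vanishing ones -/
theorem sch_lin {n : ℕ} (T : Finset (Pl k)) (f : Fin n → ι → k)
    (hli : LinearIndependent k fun i => (van U F).mkQ (f i)) (M : Pl k → Matrix (Fin n) (Fin n) k)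
    (hM : ∀ v ∈ T, (M v).det ≠ 0) : ∑ v ∈ T, ∑ i, szf U F v (∑ j, M v i j • f j) ≤ n := by
  classical
  by_contra hcon
  push Not at hcon
  set lam : Pl k → Fin n → ℝ := fun v i => szf U F v (∑ j, M v i j • f j) with hlam
  set σ : ℝ := ∑ v ∈ T, ∑ i, lam v i with hσ
  have hσN : (n : ℝ) < σ := hcon
  have hm : 0 < n := by
    rcases Nat.eq_zero_or_pos n with h | h
    · subst h
      simp [hσ] at hσN
    · exact h
  have hTc : 0 < T.card := by
    rw [Finset.card_pos]
    by_contra h
    rw [Finset.not_nonempty_iff_eq_empty] at h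
    have : σ = 0 := by rw [hσ, h]; simp
    rw [this] at hσN
    have : (0 : ℝ) ≤ (n : ℝ) := by positivity
    linarith
  have hm' : (0 : ℝ) < n := by exact_mod_cast hm
  have hTc' : (0 : ℝ) < T.card := by exact_mod_cast hTc
  have hrow : ∀ v ∈ T, ∀ i, (fun j => M v i j) ≠ 0 := by
    intro v hv i h0
    apply hM v hv
    exact Matrix.det_eq_zero_of_row_eq_zero i fun j => congrFun h0 j
  -- combinations do not vanish
  have hcomb : ∀ c : Fin n → k, c ≠ 0 → ∑ j, c j • f j ∉ van U F := by
    intro c hc h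
    apply hc
    funext i
    refine Fintype.linearIndependent_iff.1 hli c ?_ i
    have h1 : (van U F).mkQ (∑ j, c j • f j) = 0 := (Submodule.Quotient.mk_eq_zero _).mpr h
    rw [← h1, map_sum]
    exact Finset.sum_congr rfl fun j _ => (map_smul _ _ _).symm
  have hvlc : ∀ (c : Fin n → k) (y : ι → k), vl (∑ j, c j • f j) y = ∑ j, c j * vl (f j) y := by
    intro c y
    unfold vl
    simp only [Finset.sum_apply, Pi.smul_apply, smul_eq_mul, Finset.sum_mul, Finset.mul_sum]
    rw [Finset.sum_comm]
    exact Finset.sum_congr rfl fun j _ => Finset.sum_congr rfl fun a _ => by ring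
  let Fr : Frm k (Fin n) :=
    { S := T.toRight
      L := fun v => if v ∈ T then M v else 1
      hL := fun v => by
        by_cases h : v ∈ T
        · rw [if_pos h]; exact hM v h
        · rw [if_neg h, Matrix.det_one]; exact one_ne_zero
      hS := fun v hv => by
        have h : Sum.inr v ∉ T := fun h => hv (Finset.mem_toRight.mpr h)
        rw [if_neg h] }
  let c : Pl k → Fin n → ℝ := fun v i => if v ∈ T then -lam v i + σ / (n * T.card) else 0
  have hcT : ∀ v, v ∈ T → ∀ i, c v i = -lam v i + σ / (n * T.card) := fun v h i => by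
    simp only [c, h, if_true]
  have hcN : ∀ v, v ∉ T → ∀ i, c v i = 0 := fun v h i => by simp only [c, h, if_false]
  have hFT : ∀ v, v ∈ T → Fr.L v = M v := fun v h => by simp only [Fr, h, if_true]
  have hFN : ∀ v, v ∉ T → Fr.L v = 1 := fun v h => by simp only [Fr, h, if_false]
  have hcE : ExpS Fr.S c := fun v hv => by
    have h : Sum.inr v ∉ T := fun h => hv (Finset.mem_toRight.mpr h)
    funext i
    exact hcN _ h i
  have hdeg : deg c = 0 := by
    unfold deg
    rw [AR5.gsum_supp T _ fun v hv => Finset.sum_eq_zero fun i _ => hcN v hv i]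
    have h1 : ∀ v ∈ T, ∑ i, c v i = -(∑ i, lam v i) + σ / T.card := by
      intro v hv
      simp_rw [hcT v hv]
      rw [Finset.sum_add_distrib, Finset.sum_neg_distrib, Finset.sum_const, Finset.card_univ,
        Fintype.card_fin, nsmul_eq_mul]
      congr 1
      field_simp
    rw [Finset.sum_congr rfl h1, Finset.sum_add_distrib, Finset.sum_neg_distrib,
      ← hσ, Finset.sum_const, nsmul_eq_mul]
    field_simp
    ring
  -- the points
  let y : ℕ → Fin n → k := fun j i => vl (f i) (F j)
  have hfv : ∀ i, f i ∉ van U F := fun i => not_van_of_mk U F (hli.ne_zero i)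
  have hf0 : ∀ i, f i ≠ 0 := fun i h0 => hfv i (by rw [h0]; exact (van U F).zero_mem)
  let BB : Pl k → ℝ := fun v => ∑ i, lcf (f i) v
  have hBBf : FinS BB := FinS.sum Finset.univ fun i _ => finS_lcf (hf0 i)
  have hBB0 : ∀ v, 0 ≤ BB v := fun v => Finset.sum_nonneg fun i _ => lcf_nonneg (f i) v
  have hBBle : ∀ i v, lcf (f i) v ≤ BB v := fun i v =>
    Finset.single_le_sum (f := fun i => lcf (f i) v) (fun i _ => lcf_nonneg (f i) v) (Finset.mem_univ i)
  set κ : ℝ := σ / n - 1 with hκ
  have hκ0 : 0 < κ := by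
    rw [hκ, sub_pos, lt_div_iff₀ hm']
    linarith
  set ε : ℝ := κ / (4 * T.card) with hε
  have hε0 : 0 < ε := by positivity
  have e2 : ∀ᶠ j in (U : Filter ℕ), ∀ v : T, ∀ i, vl (∑ j, M v i j • f j) (F j) ≠ 0 :=
    Filter.eventually_all.mpr fun v => Filter.eventually_all.mpr fun i =>
      not_van U F (hcomb _ (hrow v.1 v.2 i))
  have e3 : ∀ᶠ j in (U : Filter ℕ), ∀ v : T, ∀ i,
      lam v i - ε < (Real.log (vn v.1 (F j)) - Real.log (nv v.1 (vl (∑ j, M v i j • f j) (F j)))) / vH (F j) :=
    Filter.eventually_all.mpr fun v => Filter.eventually_all.mpr fun i =>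
      (szf_tendsto U F hH v.1 _ (hcomb _ (hrow v.1 v.2 i))).eventually_const_lt (by
        show lam v i - ε < lam v i
        linarith)
  have e4 : ∀ᶠ j in (U : Filter ℕ), 1 ≤ vH (F j) := hH.eventually_ge_atTop 1
  have e5 : ∀ᶠ j in (U : Filter ℕ), 4 * gsum BB / κ ≤ vH (F j) := hH.eventually_ge_atTop _
  have e6 : ∀ᶠ j in (U : Filter ℕ), vl (f ⟨0, hm⟩) (F j) ≠ 0 := not_van U F (hfv _)
  have hmain : ∀ᶠ j in (U : Filter ℕ), y j ≠ 0 ∧
      tH Fr (sc (vH (F j)) c) (y j) ≤ -(κ / 2) * vH (F j) := by
    filter_upwards [e2, e3, e4, e5, e6] with j h2 h3 h4 h5 h6'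
    have hFj : F j ≠ 0 := vl_ne_zero_right h6'
    have hy : y j ≠ 0 := fun h => h6' (congrFun h ⟨0, hm⟩)
    refine ⟨hy, ?_⟩
    have hj0 : 0 < vH (F j) := by linarith
    rw [div_le_iff₀ hκ0] at h5
    have hvn : ∀ v, 0 < vn v (F j) := fun v => vn_pos v hFj
    have hloc : ∀ v, Real.log (tn Fr (sc (vH (F j)) c) v (y j)) ≤
        Real.log (vn v (F j)) + (BB v +
          (if v ∈ T then (ε - σ / (n * T.card)) * vH (F j) else 0)) := by
      intro v
      rw [Real.log_le_iff_le_exp (tn_pos _ _ _ hy)]
      refine tn_le _ _ _ _ (Real.exp_pos _).le fun i => ?_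
      by_cases hv : v ∈ T
      · rw [if_pos hv, hFT v hv]
        have h6 : Matrix.mulVec (M v) (y j) i = vl (∑ j, M v i j • f j) (F j) := by
          rw [hvlc]
          rfl
        rw [h6]
        have h7 := h2 ⟨v, hv⟩ i
        have h8 := h3 ⟨v, hv⟩ i
        rw [lt_div_iff₀ hj0] at h8
        have h9 : sc (vH (F j)) c v i = vH (F j) * (-lam v i + σ / (n * T.card)) := by
          show vH (F j) * c v i = _
          rw [hcT v hv]
        rw [h9, ← Real.exp_log (nv_pos v h7), ← Real.exp_add]
        apply Real.exp_le_exp.mpr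
        have h10 := hBB0 v
        have h11 : vH (F j) * (-lam v i + σ / (n * T.card)) =
            -(lam v i * vH (F j)) + σ / (n * T.card) * vH (F j) := by ring
        rw [h11]
        have h12 : (lam v i - ε) * vH (F j) = lam v i * vH (F j) - ε * vH (F j) := by
          ring
        simp only at h8
        rw [h12] at h8
        have h13 : (ε - σ / (n * T.card)) * vH (F j) =
            ε * vH (F j) - σ / (n * T.card) * vH (F j) := by ring
        rw [h13]
        linarith
      · rw [if_neg hv, hFN v hv, Matrix.one_mulVec]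
        have h9 : sc (vH (F j)) c v i = 0 := by
          show vH (F j) * c v i = _
          rw [hcN v hv, mul_zero]
        rw [h9, neg_zero, Real.exp_zero, mul_one]
        refine (nv_vl_le (f i) (F j) hFj v).trans ?_
        rw [add_zero, Real.exp_add, Real.exp_log (hvn v), mul_comm]
        refine mul_le_mul_of_nonneg_left ?_ (hvn v).le
        exact Real.exp_le_exp.mpr (hBBle i v)
    have hfT : FinS (fun v : Pl k =>
        (if v ∈ T then (ε - σ / (n * T.card)) * vH (F j) else 0)) :=
      AR5.finS_supp T _ fun v hv => if_neg hv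
    have hg := gsum_mono (finS_tn Fr (sc (vH (F j)) c) (hcE.sc _) hy)
      ((finS_vn hFj).add (hBBf.add hfT)) hloc
    rw [gsum_add (finS_vn hFj) (hBBf.add hfT), gsum_add hBBf hfT,
      AR5.gsum_supp T _ (fun v hv => if_neg hv)] at hg
    have h6 : ∑ v ∈ T, (if v ∈ T then (ε - σ / (n * T.card)) * vH (F j) else 0) =
        (κ / 4 - σ / n) * vH (F j) := by
      rw [Finset.sum_congr rfl fun v hv => if_pos hv, Finset.sum_const, nsmul_eq_mul, hε]
      field_simp
    rw [h6] at hg
    have h7 : gsum (fun v => Real.log (vn v (F j))) = vH (F j) := rfl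
    rw [h7] at hg
    have h8 : tH Fr (sc (vH (F j)) c) (y j) =
        gsum (fun v => Real.log (tn Fr (sc (vH (F j)) c) v (y j))) := rfl
    rw [h8]
    refine hg.trans ?_
    have h9 : σ / n = κ + 1 := by rw [hκ]; ring
    rw [h9]
    nlinarith
  obtain ⟨W, hW, hyW⟩ := subspace Fr c hcE hdeg U (fun j => vH (F j)) hH (κ / 2) (by positivity) y
    hmain
  obtain ⟨g, hg0, hgW⟩ := Submodule.exists_le_ker_of_lt_top W (lt_top_iff_ne_top.mpr hW)
  have hfy : ∀ z : Fin n → k, g z = ∑ i, g (Pi.single i 1) * z i := by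
    intro z
    conv_lhs => rw [pi_eq_sum_univ' z]
    rw [map_sum]
    refine Finset.sum_congr rfl fun i _ => ?_
    rw [map_smul, smul_eq_mul, mul_comm]
  have hc0 : (fun i => g (Pi.single i 1)) ≠ 0 := by
    intro h0
    apply hg0
    apply LinearMap.ext
    intro z
    rw [hfy z]
    simp only [LinearMap.zero_apply]
    exact Finset.sum_eq_zero fun i _ => by rw [congrFun h0 i]; simp
  obtain ⟨j, hj1, hj2⟩ := ((not_van U F (hcomb _ hc0)).and hyW).exists
  apply hj1
  rw [hvlc]
  have h1 := hfy (y j)
  have h2 : g (y j) = 0 := LinearMap.mem_ker.mp (hgW hj2)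
  rw [h2] at h1
  exact h1.symm

/-- the subspace theorem -/
theorem sch (P : Finset (Pl k)) (n : Pl k → ℕ) (w : ∀ v, Fin (n v) → Qt U F)
    (hw : ∀ v ∈ P, LinearIndependent k (w v)) : ∑ v ∈ P, ∑ i, sz U F v (w v i) ≤ finrank k (Qt U F) := by
  classical
  set d := finrank k (Qt U F) with hd
  let B : Basis (Fin d) k (Qt U F) := finBasis k (Qt U F)
  let f : Fin d → ι → k := fun i => Quotient.out (B i)
  have hf : ∀ i, (van U F).mkQ (f i) = B i := fun i => Quotient.out_eq (B i)
  have hli : LinearIndependent k fun i => (van U F).mkQ (f i) := by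
    have h1 : (fun i => (van U F).mkQ (f i)) = B := funext hf
    rw [h1]
    exact B.linearIndependent
  -- completion of the independent families
  have hext : ∀ v ∈ P, ∃ B' : Basis (Fin d) k (Qt U F), ∑ i, sz U F v (w v i) ≤ ∑ i, sz U F v (B' i) := by
    intro v hv
    let Bv := Basis.extend (hw v hv).linearIndepOn_id
    have hfin : Fintype ((hw v hv).linearIndepOn_id.extend (Set.subset_univ (Set.range (w v)))) :=
      FiniteDimensional.fintypeBasisIndex Bv
    have hcard : Fintype.card ((hw v hv).linearIndepOn_id.extend (Set.subset_univ (Set.range (w v)))) = d := by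
      rw [hd, finrank_eq_card_basis Bv]
    let e := Fintype.equivFinOfCardEq hcard
    refine ⟨Bv.reindex e, ?_⟩
    have h1 : ∑ i, sz U F v (Bv.reindex e i) = ∑ x, sz U F v (Bv x) := by
      simp only [Basis.reindex_apply]
      exact e.symm.sum_comp fun x => sz U F v (Bv x)
    rw [h1]
    have hsub : Set.range (w v) ⊆ (hw v hv).linearIndepOn_id.extend (Set.subset_univ (Set.range (w v))) :=
      (hw v hv).linearIndepOn_id.subset_extend _
    let φ : Fin (n v) → ((hw v hv).linearIndepOn_id.extend (Set.subset_univ (Set.range (w v)))) :=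
      fun i => ⟨w v i, hsub ⟨i, rfl⟩⟩
    have hφ : Function.Injective φ := fun i j hij => (hw v hv).injective (congrArg Subtype.val hij)
    have h2 : ∑ i, sz U F v (w v i) = ∑ x ∈ Finset.univ.image φ, sz U F v (Bv x) := by
      rw [Finset.sum_image (fun i _ j _ hij => hφ hij)]
      refine Finset.sum_congr rfl fun i _ => ?_
      rw [Basis.extend_apply_self]
    rw [h2]
    refine Finset.sum_le_sum_of_subset_of_nonneg (Finset.subset_univ _) fun x _ _ => ?_
    exact sz_nonneg U F hH v _ (Bv.ne_zero x)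
  have hneB : Nonempty (Basis (Fin d) k (Qt U F)) := ⟨B⟩
  choose! B' hB' using hext
  let M : Pl k → Matrix (Fin d) (Fin d) k := fun v i j => B.repr (B' v i) j
  have hMB : ∀ v i, (van U F).mkQ (∑ j, M v i j • f j) = B' v i := by
    intro v i
    rw [map_sum]
    conv_rhs => rw [← B.sum_repr (B' v i)]
    exact Finset.sum_congr rfl fun j _ => by rw [map_smul, hf]
  have hM : ∀ v ∈ P, (M v).det ≠ 0 := by
    intro v _ h0
    have h1 : IsUnit (B.toMatrix (B' v)).det := (Basis.is_basis_iff_det B).mp ⟨(B' v).linearIndependent, (B' v).span_eq⟩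
    have h2 : (B.toMatrix (B' v)) = (M v).transpose := by
      ext i j
      rfl
    rw [h2, Matrix.det_transpose, h0] at h1
    exact not_isUnit_zero h1
  have h1 := sch_lin U F hH P f hli M hM
  refine le_trans (Finset.sum_le_sum fun v hv => (hB' v hv).trans (le_of_eq ?_)) h1
  refine Finset.sum_congr rfl fun i _ => ?_
  have h2 : ∑ j, M v i j • f j ∉ van U F := by
    apply not_van_of_mk
    rw [hMB]
    exact (B' v).ne_zero i
  rw [← sz_mk U F hH v _ h2, hMB]

end Pool.Agent.QP
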